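import Pool.Agent.Helper61.SS.Goals

/-!
# Packet SR2 of project SS (MP_552bae_an)
-/

set_option autoImplicit false

namespace Pool.Agent.Helper74.SS

open Filter Topology Pool.Agent.Helper61.SS

universe u v w

variable {B : Type u} [NonUnitalNormedRing B] [NormedSpace ℂ B] [IsScalarTower ℂ B B]
  [SMulCommClass ℂ B B]

lemma inr_pow (x : B) (n : ℕ) :
    (x : Unitization ℂ B) ^ (n + 1) = ((pw x n : B) : Unitization ℂ B) := by
  induction n with
  | zero => simp [pw]
  | succ n ih => rw [pow_succ, ih, pw, Unitization.inr_mul]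

lemma toLp_pow (x : B) (n : ℕ) :
    (WithLp.toLp 1 (x : Unitization ℂ B)) ^ (n + 1) =
      WithLp.toLp 1 ((pw x n : B) : Unitization ℂ B) := by
  rw [← inr_pow]
  exact (map_pow (WithLp.unitizationAlgEquiv ℂ).symm (x : Unitization ℂ B) (n + 1)).symm

lemma sr_toLp (x : B) :
    spectralRadius ℂ (x : Unitization ℂ B) =
      spectralRadius ℂ (WithLp.toLp 1 (x : Unitization ℂ B)) := by
  unfold spectralRadius
  rw [← AlgEquiv.spectrum_eq (WithLp.unitizationAlgEquiv ℂ).symm (x : Unitization ℂ B)]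
  rfl

lemma tendsto_pw [CompleteSpace B] (x : B) :
    Tendsto (fun n : ℕ => ((‖pw x n‖₊ : ENNReal) ^ (1 / ((n + 1 : ℕ) : ℝ)))) atTop
      (𝓝 (spectralRadius ℂ (x : Unitization ℂ B))) := by
  rw [sr_toLp]
  have h := spectrum.pow_nnnorm_pow_one_div_tendsto_nhds_spectralRadius
    (WithLp.toLp 1 (x : Unitization ℂ B))
  have h2 := h.comp (tendsto_add_atTop_nat 1)
  refine h2.congr fun n => ?_
  simp only [Function.comp_apply]
  rw [toLp_pow, WithLp.unitization_nnnorm_inr]

theorem gSR2 : Pool.Agent.Helper61.SS.G_SR2.{v, w} := by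
  intro B C _ _ _ _ _ _ _ _ _ _ z t h
  have hz := tendsto_pw z
  have ht := tendsto_pw t
  refine tendsto_nhds_unique ht (hz.congr fun n => ?_)
  have : ‖pw z n‖₊ = ‖pw t n‖₊ := by
    ext
    exact (h n).symm
  rw [this]

end Pool.Agent.Helper74.SS
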